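import Pool.Agent.Helper42.TN.GoalsA

/-!
# Project TN (MP_a41896_nt), packet TN-EXPN (expansion of the auxiliary function on the hypersurfaces)

Adapted from `Helper4/PM/EXPW.lean` (helper4), `Helper68/VN/BLKX.lean` and `Helper91/VN/EXPB.lean`.
-/

set_option autoImplicit false

open MvPolynomial

namespace Pool.Agent.Helper25.TN

open WeierstrassCurve Height
open Pool.Agent.Helper29.BL Pool.Agent.Helper92.Ru Pool.Agent.Helper42.SG
open Pool.Agent.Helper77.SGC (N0)
open Pool.Agent.Helper68.VN hiding xs Good nz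
open Pool.Agent.Helper19.PM
open Pool.Agent.Helper42.TN

noncomputable section

/-- one block -/
theorem blkw (K : Type) [Field K] [NumberField K] (σ : Type) [Fintype σ] [DecidableEq σ]
    (W : σ → Affine K) (B B' : AbsoluteValue K ℝ → ℝ) (D c d M e : ℕ)
    (S : σ → ℕ → Bool → Fin 2 → ℕ → ℕ → ℕ → ℕ → K) (T : Type) [Fintype T] (gr : T → ℕ)
    (E : T → MvPolynomial σ K) (r : T → (σ → ℕ) → K) (hS : ArS W B D M S)
    (f : MvPolynomial σ K) (hC : HypC f c d B' (N0 M e) T gr E r)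
    (A : Type) [CommRing A] [Algebra K A] (X Ψ X0 Ψ0 : σ → A) (l : σ → Bool) (x : Ax σ M e)
    (hf : aeval X f = 0)
    (hΨ : ∀ i, Ψ i ^ 2 = Bf (mapS A W i) (X i)) (hΨ0 : ∀ i, Ψ0 i ^ 2 = Bf (mapS A W i) (X0 i)) :
    blkB (mapS A W) M e l X Ψ X0 Ψ0 x =
      ∑ μ : σ → Fin 2, ∑ t : T, ((∏ i, (Ψ i * Ψ0 i) ^ (μ i).val) * aeval X (E t)) *
        ∑ g ∈ box σ (2 * M), algebraMap K A (Gam S M e (r t) l μ g x) * ∏ i, X0 i ^ g i := by
  classical
  have h1 : blkB (mapS A W) M e l X Ψ X0 Ψ0 x =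
      ∏ i, ∑ μ : Fin 2, ∑ s ∈ Finset.range (N0 M e + 1), ∑ g ∈ Finset.range (2 * M + 1),
        algebraMap K A (S i e (l i) μ s g (x i).1.val (x i).2.val) *
          ((Ψ i * Ψ0 i) ^ μ.val * X i ^ s * X0 i ^ g) := by
    unfold blkB
    refine Finset.prod_congr rfl fun i _ => ?_
    refine hS.exp i e (l i) (x i).1.val (x i).2.val (x i).1.isLt
      (Nat.lt_succ_iff.mp (x i).2.isLt) A (X i) (X0 i) (Ψ i * Ψ0 i) ?_
    rw [mul_pow, hΨ i, hΨ0 i]
  have h2 : (∏ i, ∑ μ : Fin 2, ∑ s ∈ Finset.range (N0 M e + 1),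
      ∑ g ∈ Finset.range (2 * M + 1),
        algebraMap K A (S i e (l i) μ s g (x i).1.val (x i).2.val) *
          ((Ψ i * Ψ0 i) ^ μ.val * X i ^ s * X0 i ^ g)) =
      ∑ μ : σ → Fin 2, ∑ s ∈ box σ (N0 M e), ∑ g ∈ box σ (2 * M),
        algebraMap K A (∏ i, S i e (l i) (μ i) (s i) (g i) (x i).1.val (x i).2.val) *
          ((∏ i, (Ψ i * Ψ0 i) ^ (μ i).val) * (∏ i, X i ^ s i) * ∏ i, X0 i ^ g i) := by
    rw [Finset.prod_univ_sum, Fintype.piFinset_univ]
    refine Finset.sum_congr rfl fun μ _ => ?_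
    rw [Finset.prod_univ_sum]
    refine Finset.sum_congr rfl fun s _ => ?_
    rw [Finset.prod_univ_sum]
    refine Finset.sum_congr rfl fun g _ => ?_
    rw [Finset.prod_mul_distrib, Finset.prod_mul_distrib, Finset.prod_mul_distrib, map_prod]
  rw [h1, h2]
  refine Finset.sum_congr rfl fun μ _ => ?_
  have hX : ∀ s ∈ box σ (N0 M e), (∏ i, X i ^ s i : A) =
      ∑ t, algebraMap K A (r t s) * aeval X (E t) := by
    intro s hs
    have hs' : ∀ i, s i ≤ N0 M e := fun i =>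
      Nat.lt_succ_iff.mp (Finset.mem_range.mp (Fintype.mem_piFinset.mp hs i))
    exact hC.exp A X hf s hs'
  calc ∑ s ∈ box σ (N0 M e), ∑ g ∈ box σ (2 * M),
        algebraMap K A (∏ i, S i e (l i) (μ i) (s i) (g i) (x i).1.val (x i).2.val) *
          ((∏ i, (Ψ i * Ψ0 i) ^ (μ i).val) * (∏ i, X i ^ s i) * ∏ i, X0 i ^ g i)
      = ∑ s ∈ box σ (N0 M e), ∑ g ∈ box σ (2 * M), ∑ t,
        ((∏ i, (Ψ i * Ψ0 i) ^ (μ i).val) * aeval X (E t)) *
          (algebraMap K A (r t s * ∏ i, S i e (l i) (μ i) (s i) (g i) (x i).1.val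
            (x i).2.val) * ∏ i, X0 i ^ g i) := by
        refine Finset.sum_congr rfl fun s hs => Finset.sum_congr rfl fun g _ => ?_
        rw [hX s hs, Finset.mul_sum, Finset.sum_mul, Finset.mul_sum]
        refine Finset.sum_congr rfl fun t _ => ?_
        rw [map_mul]
        ring
    _ = ∑ t, ∑ g ∈ box σ (2 * M), ∑ s ∈ box σ (N0 M e),
        ((∏ i, (Ψ i * Ψ0 i) ^ (μ i).val) * aeval X (E t)) *
          (algebraMap K A (r t s * ∏ i, S i e (l i) (μ i) (s i) (g i) (x i).1.val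
            (x i).2.val) * ∏ i, X0 i ^ g i) := by
        rw [Finset.sum_congr rfl fun s _ => Finset.sum_comm, Finset.sum_comm]
        exact Finset.sum_congr rfl fun t _ => Finset.sum_comm
    _ = _ := by
        refine Finset.sum_congr rfl fun t _ => ?_
        rw [Finset.mul_sum]
        refine Finset.sum_congr rfl fun g _ => ?_
        unfold Gam
        rw [map_sum, Finset.sum_mul, Finset.mul_sum]

/-- **EXPN** -/
theorem t_EXPN : Pool.Agent.Helper42.TN.EXPN := by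
  intro K _ _ σ _ _ W B D c n M e d G S T _ gr E r g hS hC cc x0 ψ0 A _ _ X Ψ hX hg lam
  have key : ∀ α : Ix σ n M 1 e,
      (∏ j, blkB (mapS A W) M (e j) (lam j) (X j) (Ψ j) (cn A x0) (cn A ψ0) (α.1 j)) =
      ∑ μ : Fin n → σ → Fin 2, ∑ t : ∀ j, T j,
        (∏ j, ((∏ i, (Ψ j i * cn A ψ0 i) ^ (μ j i).val) * aeval (X j) (E j (t j)))) *
          algebraMap K A (∏ j, ∑ g ∈ box σ (2 * M), Gam S M (e j) (r j (t j)) (lam j) (μ j) g (α.1 j) *
            ∏ i, x0 i ^ g i) := by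
    intro α
    have h1 : ∀ j : Fin n,
        blkB (mapS A W) M (e j) (lam j) (X j) (Ψ j) (cn A x0) (cn A ψ0) (α.1 j) =
        ∑ μ : σ → Fin 2, ∑ t : T j,
          ((∏ i, (Ψ j i * cn A ψ0 i) ^ (μ i).val) * aeval (X j) (E j t)) *
          algebraMap K A (∑ g ∈ box σ (2 * M), Gam S M (e j) (r j t) (lam j) μ g (α.1 j) *
            ∏ i, x0 i ^ g i) := by
      intro j
      rw [blkw K σ W B (G j) D c (d j) M (e j) S (T j) (gr j) (E j) (r j) hS (g j) (hC j) A
        (X j) (Ψ j) (cn A x0) (cn A ψ0) (lam j) (α.1 j) (hg j) (hX.blk j) hX.ref]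
      refine Finset.sum_congr rfl fun μ _ => Finset.sum_congr rfl fun t _ => ?_
      rw [map_sum]
      refine congrArg _ (Finset.sum_congr rfl fun g _ => ?_)
      rw [map_mul, map_prod]
      simp only [map_pow, cn]
    rw [Finset.prod_congr rfl (fun j _ => h1 j), Finset.prod_univ_sum, Fintype.piFinset_univ]
    apply Finset.sum_congr rfl
    intro μ _
    rw [Finset.prod_univ_sum, Fintype.piFinset_univ]
    apply Finset.sum_congr rfl
    intro t _
    rw [Finset.prod_mul_distrib, map_prod]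
  unfold PB
  simp only [key]
  simp only [Finset.mul_sum, Finset.sum_mul]
  rw [Finset.sum_comm]
  apply Finset.sum_congr rfl
  intro μ _
  rw [Finset.sum_comm]
  apply Finset.sum_congr rfl
  intro t _
  unfold BrB
  rw [map_sum, Finset.mul_sum]
  apply Finset.sum_congr rfl
  intro α _
  have h2 : (∏ i, cn A x0 i ^ (α.2 i).val) = algebraMap K A (∏ i, x0 i ^ (α.2 i).val) := by
    rw [map_prod]
    simp only [map_pow, cn]
  rw [h2, map_mul, map_mul]
  ring

end

end Pool.Agent.Helper25.TN
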