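import Pool.Agent.Helper42.TN.GoalsT
import Pool.Agent.Helper26.ZH.HT2

/-!
# Project TN (MP_a41896_nt), packet TN-PDR: a point where the derivative vanishes is low
-/

set_option autoImplicit false

open MvPolynomial

namespace Pool.Agent.Helper25.TN.PDR

open Height
open Pool.Agent.Helper29.BL Pool.Agent.Helper92.Ru
open Pool.Agent.Helper60.HC (Lo)

noncomputable section

set_option linter.unusedSectionVars false

theorem v_nat_cst {K : Type} [Field K] (v : AbsoluteValue K ℝ) (n : ℕ) (c : ℝ)
    (hn : (n : ℝ) ≤ c) : v (n : K) ≤ cst v c := by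
  by_cases hv : IsNonarchimedean v
  · rw [cst_of_nonarch hv]
    exact hv.apply_natCast_le_one
  · rw [cst_of_not_nonarch hv]
    refine le_trans ?_ hn
    clear hn
    induction n with
    | zero => simp
    | succ n ih =>
      rw [Nat.cast_succ, Nat.cast_succ]
      refine (v.add_le _ _).trans ?_
      rw [v.map_one]
      linarith

variable {K : Type} [Field K] [NumberField K] {σ : Type} [Fintype σ] [DecidableEq σ]

theorem mem_of_pd {g : MvPolynomial σ K} {a : σ} {m : σ →₀ ℕ}
    (hm : m ∈ (pderiv a g).support) : m + Finsupp.single a 1 ∈ g.support := by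
  rw [mem_support_iff, coeff_pderiv] at hm
  rw [mem_support_iff]
  exact left_ne_zero_of_mul hm

theorem deg_le (g : MvPolynomial σ K) (a i : σ) :
    (pderiv a g).degreeOf i ≤ g.degreeOf i := by
  rw [degreeOf_le_iff]
  intro m hm
  refine le_trans ?_ (monomial_le_degreeOf i (mem_of_pd hm))
  simp

theorem deg_lt (g : MvPolynomial σ K) (a : σ) (h : g.degreeOf a ≠ 0) :
    (pderiv a g).degreeOf a < g.degreeOf a := by
  rw [degreeOf_lt_iff (Nat.pos_of_ne_zero h)]
  intro m hm
  have := monomial_le_degreeOf a (mem_of_pd hm)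
  simp only [Finsupp.add_apply, Finsupp.single_eq_same] at this
  omega

theorem pd_ne (g : MvPolynomial σ K) (a : σ) (h : g.degreeOf a ≠ 0) : pderiv a g ≠ 0 := by
  have h1 : ∃ m ∈ g.support, m a ≠ 0 := by
    by_contra hc
    push Not at hc
    apply h
    have : g.degreeOf a ≤ 0 := by
      rw [degreeOf_le_iff]
      intro m hm
      exact (hc m hm).le
    omega
  obtain ⟨m, hm, hma⟩ := h1
  rw [ne_zero_iff]
  refine ⟨m - Finsupp.single a 1, ?_⟩
  have h2 : m - Finsupp.single a 1 + Finsupp.single a 1 = m := by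
    ext i
    by_cases hi : i = a
    · subst hi
      simp only [Finsupp.add_apply, Finsupp.tsub_apply, Finsupp.single_eq_same]
      omega
    · simp [Ne.symm hi]
  rw [coeff_pderiv, h2]
  refine mul_ne_zero (mem_support_iff.mp hm) ?_
  exact Nat.cast_add_one_ne_zero _

theorem not_dvd (g : MvPolynomial σ K) (a : σ) (h : g.degreeOf a ≠ 0) : ¬ g ∣ pderiv a g := by
  rintro ⟨r, hr⟩
  have h0 := pd_ne g a h
  have hg : g ≠ 0 := by
    rintro rfl
    simp at h
  have hr0 : r ≠ 0 := by
    rintro rfl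
    simp [hr] at h0
  have h1 := deg_lt g a h
  rw [hr, degreeOf_mul_eq hg hr0] at h1
  omega

theorem ph_le (g : MvPolynomial σ K) (a : σ) (D0 : ℕ) (hD : g.degreeOf a ≤ D0)
    (h : g.degreeOf a ≠ 0) :
    Real.log (PH (pderiv a g)) ≤
      Module.finrank ℚ K * Real.log (D0 + 1) + Real.log (PH g) := by
  have hg : g ≠ 0 := by
    rintro rfl
    simp at h
  have h1 := Pool.Agent.Helper26.ZH.HT2.t K σ (pderiv a g) g g 1 0 (D0 + 1) (pd_ne g a h) hg hg
    (by have : (0 : ℝ) ≤ D0 := Nat.cast_nonneg _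
        linarith) (by
      intro v _ m
      rw [pow_one, pow_zero, mul_one]
      have hbdd : BddAbove (Set.range fun m : g.support => v (coeff m.1 g)) :=
        Set.finite_range _ |>.bddAbove
      have hc : (0 : ℝ) ≤ cst v ((D0 : ℝ) + 1) := (cst_pos v (by
        have : (0 : ℝ) ≤ D0 := Nat.cast_nonneg _
        linarith)).le
      by_cases hm : m + Finsupp.single a 1 ∈ g.support
      · rw [coeff_pderiv, map_mul, mul_comm]
        have h2 : ((m a : K) + 1) = ((m a + 1 : ℕ) : K) := by push_cast; rfl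
        rw [h2]
        refine mul_le_mul (v_nat_cst v _ _ ?_) ?_ (v.nonneg _) hc
        · have := monomial_le_degreeOf a hm
          simp only [Finsupp.add_apply, Finsupp.single_eq_same] at this
          have h3 : m a + 1 ≤ D0 := this.trans hD
          have h4 : ((m a + 1 : ℕ) : ℝ) ≤ D0 := by exact_mod_cast h3
          linarith
        · exact le_ciSup hbdd ⟨_, hm⟩
      · rw [coeff_pderiv, notMem_support_iff.mp hm, zero_mul, map_zero]
        exact mul_nonneg hc (Real.iSup_nonneg fun _ => v.nonneg _))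
  simpa using h1

/-- **PDR** -/
theorem t_PDR (h : Pool.Agent.Helper60.T3.S_RESL) : Pool.Agent.Helper42.TN.PDR := by
  intro K _ _ σ _ _ D0
  obtain ⟨D', C, hC, hR⟩ := h K σ D0
  set B : ℝ := Module.finrank ℚ K * Real.log (D0 + 1) with hB
  have hB0 : 0 ≤ B := mul_nonneg (Nat.cast_nonneg _) (Real.log_nonneg (by
    have : (0 : ℝ) ≤ D0 := Nat.cast_nonneg _
    linarith))
  refine ⟨D', C * (1 + B), mul_nonneg hC (by linarith), fun g x a A hg hD ha hx hq hA hA0 => ?_⟩
  have h1 := hR g (pderiv a g) x a (A + B) hg (pd_ne g a ha) (not_dvd g a ha) hD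
    (fun i => (deg_le g a i).trans (hD i)) hx hq (by linarith)
    (by have := ph_le g a D0 (hD a) ha
        linarith) (by linarith)
  obtain ⟨p, hp, hp1, hp2, hp3, hp4⟩ := h1
  refine ⟨p, hp, hp1, hp2, hp3, hp4.trans ?_⟩
  rw [mul_assoc]
  refine mul_le_mul_of_nonneg_left ?_ hC
  nlinarith [mul_nonneg hB0 hA0]

end

end Pool.Agent.Helper25.TN.PDR
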